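import Pool.Agent.Work.MP_e487d8_al.Conv.Api

/-! MP_e487d8_al: nilpotent modules, simple modules, words and characters. -/

set_option autoImplicit false

namespace Pool.Agent.KLR

variable {K I : Type} [Field K] [Fintype I] [DecidableEq I]

/-- the dots act nilpotently -/
def Nilp (D : Datum K I) (M : Type) [AddCommGroup M] [Module (KLRAlg D) M] : Prop :=
  ∀ k, ∃ N : ℕ, ∀ u : M, D.x k ^ N • u = 0

/-- finite dimensional nilpotent module with `n` strands -/
structure FdMod (D : Datum K I) (n : ℕ) (M : Type) [AddCommGroup M] [Module K M]
    [Module (KLRAlg D) M] : Prop where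
  strand : IsStrand D n M
  fd : FiniteDimensional K M
  nilp : Nilp D M

/-- simple nilpotent module with `n` strands -/
structure Smp (D : Datum K I) (n : ℕ) (M : Type) [AddCommGroup M] [Module K M]
    [Module (KLRAlg D) M] : Prop extends FdMod D n M where
  simple : IsSimpleModule (KLRAlg D) M

/-- the idempotent `e(ν)` of the strands `0, ..., |ν| - 1` -/
noncomputable def Datum.eW (D : Datum K I) : List I → KLRAlg D
  | [] => 1
  | i :: ν => D.e 0 i * D.shn 1 (D.eW ν)

/-- the word space `e(ν) M` -/
noncomputable def wordSp (D : Datum K I) (M : Type) [AddCommGroup M] [Module K M]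
    [Module (KLRAlg D) M] [IsScalarTower K (KLRAlg D) M] (ν : List I) : Submodule K M :=
  LinearMap.range (Algebra.lsmul K K M (D.eW ν))

/-- the character of a module with `n` strands -/
noncomputable def chr (D : Datum K I) (n : ℕ) (M : Type) [AddCommGroup M] [Module K M]
    [Module (KLRAlg D) M] [IsScalarTower K (KLRAlg D) M] (ν : List I) : ℕ :=
  if ν.length = n then Module.finrank K (wordSp D M ν) else 0

end Pool.Agent.KLR
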