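import Pool.Agent.Work.MP_e487d8_al.Conv.Fin
import Pool.Agent.Work.MP_e487d8_al.Mod.Defs

/-! MP_e487d8_al: words: the idempotents `eW` and the shuffle basis. -/

set_option autoImplicit false

open scoped TensorProduct

namespace Pool.Agent.KLR

variable {K I : Type} [Field K] [Fintype I] [DecidableEq I] {D : Datum K I}

/-- the sublist of `κ` at the positions where `w` is `b` -/
def sel {I : Type} (b : Bool) : List Bool → List I → List I
  | [], _ => []
  | _ :: _, [] => []
  | c :: w, i :: κ => if c = b then i :: sel b w κ else sel b w κ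

theorem length_sel {I : Type} (b : Bool) (w : List Bool) (κ : List I) (h : w.length = κ.length) :
    (sel b w κ).length = w.count b := by
  induction w generalizing κ with
  | nil => simp [sel]
  | cons c w ih =>
    cases κ with
    | nil => simp at h
    | cons i κ =>
      rw [List.length_cons, List.length_cons, add_left_inj] at h
      rw [sel]
      by_cases hc : c = b
      · rw [if_pos hc, List.length_cons, ih κ h, hc, List.count_cons_self]
      · rw [if_neg hc, ih κ h, List.count_cons_of_ne hc]

namespace Datum

variable (D)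

theorem eW_nil : D.eW [] = 1 := rfl
theorem eW_cons (i : I) (ν : List I) : D.eW (i :: ν) = D.e 0 i * D.shn 1 (D.eW ν) := rfl

theorem tr_eW {m : ℕ} (ν : List I) (h : ν.length ≤ m) : D.tr m (D.eW ν) = D.eW ν := by
  induction ν generalizing m with
  | nil => exact map_one _
  | cons i ν ih =>
    rw [List.length_cons] at h
    obtain ⟨p, rfl⟩ : ∃ q, m = 1 + q := ⟨m - 1, by omega⟩
    rw [eW_cons, map_mul, D.tr_shn, ih (by omega), D.tr_e, if_pos (by omega)]

theorem e0_shn (i : I) (a : KLRAlg D) : D.e 0 i * D.shn 1 a = D.shn 1 a * D.e 0 i := by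
  have h := D.tr_mul_shn (le_refl 1) (D.e 0 i) a
  rwa [D.tr_e, if_pos Nat.zero_lt_one] at h

theorem eW_append (ν μ : List I) : D.eW (ν ++ μ) = D.eW ν * D.shn ν.length (D.eW μ) := by
  induction ν with
  | nil => rw [List.nil_append, eW_nil, one_mul, List.length_nil, D.shn_zero]
  | cons i ν ih =>
    rw [List.cons_append, eW_cons, eW_cons, ih, map_mul, D.shn_shn, List.length_cons, mul_assoc,
      Nat.add_comm ν.length 1]

theorem eW_idem (ν : List I) : D.eW ν * D.eW ν = D.eW ν := by
  induction ν with
  | nil => rw [eW_nil, one_mul]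
  | cons i ν ih =>
    rw [eW_cons, mul_assoc, ← mul_assoc (D.shn 1 (D.eW ν)), ← D.e0_shn, mul_assoc (D.e 0 i),
      ← map_mul, ih, ← mul_assoc, D.e_idem]

theorem eW_ne (ν μ : List I) (hl : ν.length = μ.length) (h : ν ≠ μ) :
    D.eW ν * D.eW μ = 0 := by
  induction ν generalizing μ with
  | nil =>
    cases μ with
    | nil => exact absurd rfl h
    | cons j μ => simp at hl
  | cons i ν ih =>
    cases μ with
    | nil => simp at hl
    | cons j μ =>
      rw [List.length_cons, List.length_cons, add_left_inj] at hl
      rw [eW_cons, eW_cons, mul_assoc, ← mul_assoc (D.shn 1 (D.eW ν)), ← D.e0_shn,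
        mul_assoc (D.e 0 j), ← map_mul, ← mul_assoc]
      by_cases hij : i = j
      · subst hij
        rw [ih μ hl (fun h' => h (by rw [h'])), map_zero, mul_zero]
      · rw [D.e_mul_e_ne 0 hij, zero_mul]

/-- `e 0 i` moves through the chain -/
theorem e0_chain (i : I) (m : ℕ) : D.e 0 i * D.chain m = D.chain m * D.e m i := by
  induction m with
  | zero => simp [chain]
  | succ m ih => rw [chain, ← mul_assoc, ih, mul_assoc, ← D.t_e1, ← mul_assoc]

theorem ek_chain (i : I) {k m : ℕ} (h : k < m) :
    D.e (k + 1) i * D.chain m = D.chain m * D.e k i := by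
  induction m with
  | zero => omega
  | succ m ih =>
    rw [chain, ← mul_assoc]
    by_cases hk : k = m
    · subst hk
      have h1 := D.tr_mul_shn (m := k + 1) (m' := k + 1) le_rfl (D.chain k) (D.e 0 i)
      rw [D.tr_chain (by omega), D.shn_e, Nat.add_zero] at h1
      rw [← h1, mul_assoc, ← D.t_e0, mul_assoc]
    · rw [ih (by omega), mul_assoc, ← D.t_e m k i (by omega) (by omega), mul_assoc]

theorem shn_chain_comm (m : ℕ) (a : KLRAlg D) :
    D.shn (m + 1) a * D.chain m = D.chain m * D.shn (m + 1) a := by
  have h1 := D.tr_mul_shn (m := m + 1) (m' := m + 1) le_rfl (D.chain m) a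
  rw [D.tr_chain (by omega)] at h1
  exact h1.symm

theorem eW_chain_aux (ν : List I) (j m : ℕ) (h : j + ν.length ≤ m) :
    D.shn (j + 1) (D.eW ν) * D.chain m = D.chain m * D.shn j (D.eW ν) := by
  induction ν generalizing j with
  | nil => rw [eW_nil, map_one, map_one, one_mul, mul_one]
  | cons i ν ih =>
    rw [List.length_cons] at h
    rw [eW_cons, map_mul, map_mul, D.shn_shn, D.shn_shn, mul_assoc, ih (j + 1) (by omega),
      ← mul_assoc, D.shn_e, D.shn_e, Nat.add_zero, D.ek_chain i (by omega),
      mul_assoc]
    rfl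

theorem eW_chain (ν μ : List I) (m : ℕ) (h : ν.length = m) :
    D.shn 1 (D.eW (ν ++ μ)) * D.chain m = D.chain m * (D.eW ν * D.shn (m + 1) (D.eW μ)) := by
  rw [eW_append, map_mul, D.shn_shn, h, mul_assoc, Nat.add_comm 1 m, D.shn_chain_comm,
    ← mul_assoc]
  have h1 := D.eW_chain_aux ν 0 m (by omega)
  rw [Nat.zero_add, D.shn_zero] at h1
  rw [h1, mul_assoc]

/-- word idempotents move through `tw w` -/
theorem eW_tw (w : List Bool) (κ : List I) (h : w.length = κ.length) :
    D.eW κ * D.tw w =
      D.tw w * (D.eW (sel false w κ) * D.shn (w.count false) (D.eW (sel true w κ))) := by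
  induction w generalizing κ with
  | nil =>
    cases κ with
    | nil => simp [sel, tw, eW_nil]
    | cons i κ => simp at h
  | cons c w ih =>
    cases κ with
    | nil => simp at h
    | cons i κ =>
      rw [List.length_cons, List.length_cons, add_left_inj] at h
      cases c with
      | false =>
        rw [List.count_cons_self, sel, if_pos rfl, sel, if_neg (by decide), tw, eW_cons, eW_cons]
        rw [mul_assoc, ← map_mul, ih κ h, map_mul, map_mul, D.shn_shn, Nat.add_comm 1,
          ← mul_assoc, D.e0_shn, mul_assoc]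
        congr 1
        rw [← mul_assoc]
      | true =>
        have h1 : (sel false w κ).length = w.count false := length_sel false w κ h
        have h2 := D.eW_chain (sel false w κ) (sel true w κ) (w.count false) h1
        rw [eW_append, map_mul, D.shn_shn, h1, Nat.add_comm 1] at h2
        rw [List.count_cons_of_ne (by decide), sel, if_neg (by decide), sel, if_pos rfl, tw,
          eW_cons, eW_cons, mul_assoc, ← mul_assoc (D.shn 1 (D.eW κ)), ← map_mul, ih κ h, map_mul,
          map_mul, D.shn_shn, Nat.add_comm 1, ← mul_assoc, ← mul_assoc, D.e0_shn,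
          mul_assoc (D.shn 1 (D.tw w))]
        rw [mul_assoc (D.shn 1 (D.tw w)), mul_assoc (D.shn 1 (D.tw w))]
        congr 1
        have h3 := D.tr_mul_shn (m := w.count false) le_rfl (D.eW (sel false w κ)) (D.e 0 i)
        rw [D.tr_eW _ (le_of_eq h1), D.shn_e, Nat.add_zero] at h3
        rw [mul_assoc, h2, ← mul_assoc, D.e0_chain, map_mul, D.shn_shn, D.shn_e, Nat.add_zero,
          mul_assoc, ← mul_assoc (D.e (w.count false) i), ← h3, mul_assoc]
        rfl

end Datum

end Pool.Agent.KLR
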