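import Pool.Agent.Work.MP_e487d8_al.Mod.Defs

/-! MP_e487d8_al: the one dimensional modules `L(i)` (one strand) and the trivial module
(no strand), nilpotency of modules generated by nilpotent vectors. -/

set_option autoImplicit false

open scoped TensorProduct

namespace Pool.Agent.KLR

variable {K I : Type} [Field K] [Fintype I] [DecidableEq I]

/-! ### the one dimensional modules -/

/-- the action of the KLR algebra on `L(i)` -/
noncomputable def ltHom (D : Datum K I) (i : I) : KLRAlg D →ₐ[K] K :=
  liftHom (D := D) (e := fun k j => if k = 0 ∧ j = i then 1 else 0) (x := fun _ => 0)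
    (t := fun _ => 0)
    { ee := by
        intro k j j'
        by_cases hk : k = 0 <;> by_cases hj : j = i <;> by_cases hj' : j = j' <;>
          by_cases hj'' : j' = i <;> simp_all
      ee_comm := by intro k l j j'; exact mul_comm _ _
      xx := by intro k l; simp
      xe := by intro k l j; simp
      xE := by intro k; simp
      tE := by intro k; simp
      tE' := by intro k; simp
      te0 := by intro k j; simp
      te1 := by intro k j; simp
      te := by intro k l j _ _; simp
      tx := by intro k l _ _; simp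
      tx0 := by intro k; simp
      tx1 := by intro k; simp
      tt := by intro k; simp
      far := by intro k l _; simp
      braid := by intro k; simp }

/-- the action of the KLR algebra on the trivial module -/
noncomputable def unHom (D : Datum K I) : KLRAlg D →ₐ[K] K :=
  liftHom (D := D) (e := fun _ _ => 0) (x := fun _ => 0) (t := fun _ => 0)
    { ee := by intro k j j'; simp
      ee_comm := by intro k l j j'; exact mul_comm _ _
      xx := by intro k l; simp
      xe := by intro k l j; simp
      xE := by intro k; simp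
      tE := by intro k; simp
      tE' := by intro k; simp
      te0 := by intro k j; simp
      te1 := by intro k j; simp
      te := by intro k l j _ _; simp
      tx := by intro k l _ _; simp
      tx0 := by intro k; simp
      tx1 := by intro k; simp
      tt := by intro k; simp
      far := by intro k l _; simp
      braid := by intro k; simp }

/-- the one dimensional module `L(i)` with one strand -/
@[nolint unusedArguments]
def Lt (_D : Datum K I) (_i : I) : Type := K

/-- the trivial module (no strand) -/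
@[nolint unusedArguments]
def Un (_D : Datum K I) : Type := K

namespace Lt

variable (D : Datum K I) (i : I)

noncomputable instance : AddCommGroup (Lt D i) := inferInstanceAs (AddCommGroup K)
noncomputable instance : Module K (Lt D i) := inferInstanceAs (Module K K)
noncomputable instance : Module (KLRAlg D) (Lt D i) :=
  Module.compHom K (ltHom D i : KLRAlg D →+* K)

/-- the identification with `K` -/
noncomputable def of : K ≃ₗ[K] Lt D i := LinearEquiv.refl K K

/-- the generator -/
noncomputable def one : Lt D i := of D i 1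

theorem smul_of (a : KLRAlg D) (c : K) : a • of D i c = of D i (ltHom D i a * c) := rfl

omit [Fintype I] [DecidableEq I] in
theorem of_eq (c : K) : of D i c = c • one D i := by
  unfold one
  rw [← map_smul, smul_eq_mul, mul_one]

omit [Fintype I] [DecidableEq I] in
theorem exists_eq (u : Lt D i) : ∃ c : K, u = c • one D i :=
  ⟨(of D i).symm u, by rw [← of_eq, LinearEquiv.apply_symm_apply]⟩

instance : IsScalarTower K (KLRAlg D) (Lt D i) where
  smul_assoc r a u := by
    obtain ⟨c, rfl⟩ := (of D i).surjective u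
    rw [smul_of, smul_of, ← map_smul (of D i) r, smul_eq_mul, map_smul (ltHom D i) r a,
      smul_eq_mul, mul_assoc]

theorem smul_one (a : KLRAlg D) : a • one D i = ltHom D i a • one D i := by
  unfold one
  rw [smul_of, mul_one, ← map_smul, smul_eq_mul, mul_one]

theorem smul_eq (a : KLRAlg D) (u : Lt D i) : a • u = ltHom D i a • u := by
  obtain ⟨c, rfl⟩ := (of D i).surjective u
  rw [smul_of, ← map_smul, smul_eq_mul]

theorem ltHom_e (k : ℕ) (j : I) : ltHom D i (D.e k j) = if k = 0 ∧ j = i then 1 else 0 :=
  liftHom_e _ k j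
theorem ltHom_x (k : ℕ) : ltHom D i (D.x k) = 0 := liftHom_x _ k
theorem ltHom_t (k : ℕ) : ltHom D i (D.t k) = 0 := liftHom_t _ k

theorem e_smul (u : Lt D i) : D.e 0 i • u = u := by
  rw [smul_eq, ltHom_e, if_pos ⟨rfl, rfl⟩, one_smul]

theorem e_smul_ne {j : I} (h : j ≠ i) (u : Lt D i) : D.e 0 j • u = 0 := by
  rw [smul_eq, ltHom_e, if_neg (by simp [h]), zero_smul]

theorem x_smul (k : ℕ) (u : Lt D i) : D.x k • u = 0 := by
  rw [smul_eq, ltHom_x, zero_smul]

theorem t_smul (k : ℕ) (u : Lt D i) : D.t k • u = 0 := by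
  rw [smul_eq, ltHom_t, zero_smul]

theorem isStrand : IsStrand D 1 (Lt D i) where
  one k hk u := by
    have hk' : k = 0 := by omega
    subst hk'
    unfold Datum.E
    rw [Finset.sum_smul, Finset.sum_eq_single i]
    · exact e_smul D i u
    · intro j _ hj
      exact e_smul_ne D i hj u
    · intro h
      exact absurd (Finset.mem_univ i) h
  zero k hk j u := by
    rw [smul_eq, ltHom_e, if_neg (by omega), zero_smul]

instance : FiniteDimensional K (Lt D i) := inferInstanceAs (FiniteDimensional K K)

omit [Fintype I] [DecidableEq I] in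
theorem finrank_eq : Module.finrank K (Lt D i) = 1 := Module.finrank_self K

omit [Fintype I] [DecidableEq I] in
theorem one_ne_zero : one D i ≠ 0 := by
  unfold one
  intro h
  rw [← map_zero (of D i)] at h
  exact _root_.one_ne_zero ((of D i).injective h)

instance : IsSimpleModule (KLRAlg D) (Lt D i) := by
  have : Nontrivial (Lt D i) := ⟨⟨one D i, 0, one_ne_zero D i⟩⟩
  rw [isSimpleModule_iff_toSpanSingleton_surjective]
  refine ⟨this, fun u hu v => ?_⟩
  obtain ⟨c, rfl⟩ := exists_eq D i u
  obtain ⟨d, rfl⟩ := exists_eq D i v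
  have hc : c ≠ 0 := by
    rintro rfl
    exact hu (zero_smul _ _)
  refine ⟨algebraMap K (KLRAlg D) (d / c), ?_⟩
  rw [LinearMap.toSpanSingleton_apply, algebraMap_smul, smul_smul, div_mul_cancel₀ _ hc]

theorem smp : Smp D 1 (Lt D i) where
  strand := isStrand D i
  fd := inferInstance
  nilp := fun k => ⟨1, fun u => by rw [pow_one, x_smul]⟩
  simple := inferInstance

end Lt

namespace Un

variable (D : Datum K I)

noncomputable instance : AddCommGroup (Un D) := inferInstanceAs (AddCommGroup K)
noncomputable instance : Module K (Un D) := inferInstanceAs (Module K K)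
noncomputable instance : Module (KLRAlg D) (Un D) :=
  Module.compHom K (unHom D : KLRAlg D →+* K)

/-- the identification with `K` -/
noncomputable def of : K ≃ₗ[K] Un D := LinearEquiv.refl K K

/-- the generator -/
noncomputable def one : Un D := of D 1

theorem smul_of (a : KLRAlg D) (c : K) : a • of D c = of D (unHom D a * c) := rfl

omit [Fintype I] [DecidableEq I] in
theorem of_eq (c : K) : of D c = c • one D := by
  unfold one
  rw [← map_smul, smul_eq_mul, mul_one]

omit [Fintype I] [DecidableEq I] in
theorem exists_eq (u : Un D) : ∃ c : K, u = c • one D :=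
  ⟨(of D).symm u, by rw [← of_eq, LinearEquiv.apply_symm_apply]⟩

instance : IsScalarTower K (KLRAlg D) (Un D) where
  smul_assoc r a u := by
    obtain ⟨c, rfl⟩ := (of D).surjective u
    rw [smul_of, smul_of, ← map_smul (of D) r, smul_eq_mul, map_smul (unHom D) r a,
      smul_eq_mul, mul_assoc]

theorem smul_eq (a : KLRAlg D) (u : Un D) : a • u = unHom D a • u := by
  obtain ⟨c, rfl⟩ := (of D).surjective u
  rw [smul_of, ← map_smul, smul_eq_mul]

theorem unHom_e (k : ℕ) (j : I) : unHom D (D.e k j) = 0 := liftHom_e _ k j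
theorem unHom_x (k : ℕ) : unHom D (D.x k) = 0 := liftHom_x _ k
theorem unHom_t (k : ℕ) : unHom D (D.t k) = 0 := liftHom_t _ k

theorem e_smul (k : ℕ) (j : I) (u : Un D) : D.e k j • u = 0 := by
  rw [smul_eq, unHom_e, zero_smul]

theorem x_smul (k : ℕ) (u : Un D) : D.x k • u = 0 := by
  rw [smul_eq, unHom_x, zero_smul]

theorem t_smul (k : ℕ) (u : Un D) : D.t k • u = 0 := by
  rw [smul_eq, unHom_t, zero_smul]

theorem isStrand : IsStrand D 0 (Un D) where
  one k hk u := by omega
  zero k hk j u := e_smul D k j u

instance : FiniteDimensional K (Un D) := inferInstanceAs (FiniteDimensional K K)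

omit [Fintype I] [DecidableEq I] in
theorem finrank_eq : Module.finrank K (Un D) = 1 := Module.finrank_self K

omit [Fintype I] [DecidableEq I] in
theorem one_ne_zero : one D ≠ 0 := by
  unfold one
  intro h
  rw [← map_zero (of D)] at h
  exact _root_.one_ne_zero ((of D).injective h)

instance : IsSimpleModule (KLRAlg D) (Un D) := by
  have : Nontrivial (Un D) := ⟨⟨one D, 0, one_ne_zero D⟩⟩
  rw [isSimpleModule_iff_toSpanSingleton_surjective]
  refine ⟨this, fun u hu v => ?_⟩
  obtain ⟨c, rfl⟩ := exists_eq D u
  obtain ⟨d, rfl⟩ := exists_eq D v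
  have hc : c ≠ 0 := by
    rintro rfl
    exact hu (zero_smul _ _)
  refine ⟨algebraMap K (KLRAlg D) (d / c), ?_⟩
  rw [LinearMap.toSpanSingleton_apply, algebraMap_smul, smul_smul, div_mul_cancel₀ _ hc]

theorem smp : Smp D 0 (Un D) where
  strand := isStrand D
  fd := inferInstance
  nilp := fun k => ⟨1, fun u => by rw [pow_one, x_smul]⟩
  simple := inferInstance

end Un

/-! ### the universal property of `L(i) ∘ Y` -/

section lift

variable {D : Datum K I} {i : I} {Y Q : Type} [AddCommGroup Y] [Module K Y] [Module (KLRAlg D) Y]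
  [AddCommGroup Q] [Module K Q] [Module (KLRAlg D) Q] [IsScalarTower K (KLRAlg D) Q]

/-- auxiliary bilinear map -/
noncomputable def ltBil (D : Datum K I) (i : I) (f : Y →ₗ[K] Q) : Lt D i →ₗ[K] Y →ₗ[K] Q :=
  (LinearMap.toSpanSingleton K (Y →ₗ[K] Q) f).comp (Lt.of D i).symm.toLinearMap

omit [Fintype I] [DecidableEq I] [Module (KLRAlg D) Y] [Module (KLRAlg D) Q]
  [IsScalarTower K (KLRAlg D) Q] in
theorem ltBil_smul_one (f : Y →ₗ[K] Q) (c : K) (y : Y) :
    ltBil D i f (c • Lt.one D i) y = c • f y := by
  unfold ltBil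
  rw [← Lt.of_eq]
  simp

theorem ltBil_balanced (f : Y →ₗ[K] Q) (h : ∀ (b : KLRAlg D) (y : Y), D.shn 1 b • f y = f (b • y))
    (he : ∀ y, D.e 0 i • f y = f y) (hx : ∀ y, D.x 0 • f y = 0) : Balanced D 1 (ltBil D i f) where
  left a u y := by
    obtain ⟨c, rfl⟩ := Lt.exists_eq D i u
    rw [Lt.smul_eq, smul_smul, ltBil_smul_one, ltBil_smul_one, mul_comm, mul_smul, smul_comm]
    congr 1
    have key : ∀ (a : KLRAlg D) (y : Y), D.tr 1 a • f y = ltHom D i a • f y := by
      intro a
      induction a using KLRAlg.induction with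
      | hs r => intro y; rw [AlgHom.commutes, AlgHom.commutes, algebraMap_smul]; rfl
      | hadd a b ha hb => intro y; rw [map_add, map_add, add_smul, add_smul, ha, hb]
      | hmul a b ha hb =>
        intro y
        rw [map_mul, map_mul, mul_smul, hb, mul_comm, mul_smul, smul_comm, ha]
      | he k j =>
        intro y
        rw [D.tr_e, Lt.ltHom_e]
        by_cases hk : k = 0
        · subst hk
          rw [if_pos (by omega)]
          by_cases hj : j = i
          · subst hj
            rw [he, if_pos ⟨rfl, rfl⟩, one_smul]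
          · rw [if_neg (by simp [hj]), zero_smul, ← he, ← mul_smul, D.e_mul_e_ne 0 hj, zero_smul]
        · rw [if_neg (by omega), if_neg (by simp [hk]), zero_smul, zero_smul]
      | hx k =>
        intro y
        rw [D.tr_x, Lt.ltHom_x, zero_smul]
        by_cases hk : k = 0
        · subst hk
          rw [if_pos (by omega), hx]
        · rw [if_neg (by omega), zero_smul]
      | ht k =>
        intro y
        rw [D.tr_t, Lt.ltHom_t, zero_smul, if_neg (by omega), zero_smul]
    exact key a y
  right a u y := by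
    obtain ⟨c, rfl⟩ := Lt.exists_eq D i u
    rw [ltBil_smul_one, ltBil_smul_one, smul_comm, h]

/-- the universal property of `L(i) ∘ Y` -/
noncomputable def ltLift (f : Y →ₗ[K] Q) (h : ∀ (b : KLRAlg D) (y : Y), D.shn 1 b • f y = f (b • y))
    (he : ∀ y, D.e 0 i • f y = f y) (hx : ∀ y, D.x 0 • f y = 0) :
    Conv D 1 (Lt D i) Y →ₗ[KLRAlg D] Q :=
  Conv.lift (ltBil D i f) (ltBil_balanced f h he hx)

@[simp] theorem ltLift_mk (f : Y →ₗ[K] Q)
    (h : ∀ (b : KLRAlg D) (y : Y), D.shn 1 b • f y = f (b • y))
    (he : ∀ y, D.e 0 i • f y = f y) (hx : ∀ y, D.x 0 • f y = 0) (y : Y) :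
    ltLift f h he hx (Conv.mk D 1 (Lt D i) Y (Lt.one D i) y) = f y := by
  unfold ltLift
  rw [Conv.lift_mk]
  have h1 := ltBil_smul_one (D := D) (i := i) f 1 y
  rwa [one_smul, one_smul] at h1

end lift

/-! ### nilpotency -/

namespace Datum

variable (D : Datum K I)

theorem x_dl (k l : ℕ) : D.x l * D.dl k = D.dl k * D.x l := by
  unfold dl
  rw [Finset.mul_sum, Finset.sum_mul]
  refine Finset.sum_congr rfl fun i _ => ?_
  rw [← mul_assoc, D.x_e, mul_assoc, D.x_e, mul_assoc]

theorem x_pow_e (k l N : ℕ) (i : I) : D.x k ^ N * D.e l i = D.e l i * D.x k ^ N :=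
  (Commute.pow_left (D.x_e k l i) N)

theorem x_pow_x (k l N : ℕ) : D.x k ^ N * D.x l = D.x l * D.x k ^ N :=
  (Commute.pow_left (D.x_comm k l) N)

theorem x_pow_t (k l N : ℕ) (h : l ≠ k) (h' : l ≠ k + 1) : D.x l ^ N * D.t k = D.t k * D.x l ^ N :=
  (Commute.pow_left (D.t_x k l h h').symm N)

theorem x_pow_dl (k l N : ℕ) : D.x l ^ N * D.dl k = D.dl k * D.x l ^ N :=
  (Commute.pow_left (D.x_dl k l) N)

theorem x1_pow_t (k N : ℕ) : D.x (k + 1) ^ N * D.t k = D.t k * D.x k ^ N +
    (∑ p ∈ Finset.range N, D.x (k + 1) ^ p * D.x k ^ (N - 1 - p)) * D.dl k := by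
  induction N with
  | zero => simp
  | succ N ih =>
    rw [pow_succ', mul_assoc, ih, mul_add, ← mul_assoc, show D.x (k + 1) * D.t k = D.t k * D.x k +
      D.dl k by rw [D.t_x0]; abel, add_mul, Finset.sum_range_succ', mul_assoc, ← pow_succ',
      add_assoc]
    congr 1
    rw [add_mul, ← D.x_pow_dl, add_comm]
    congr 1
    · rw [← mul_assoc, Finset.mul_sum]
      congr 1
      refine Finset.sum_congr rfl fun p _ => ?_
      rw [← mul_assoc, ← pow_succ', show N + 1 - 1 - (p + 1) = N - 1 - p by omega]
    · simp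

theorem x0_pow_t (k N : ℕ) : D.x k ^ N * D.t k = D.t k * D.x (k + 1) ^ N -
    (∑ p ∈ Finset.range N, D.x k ^ p * D.x (k + 1) ^ (N - 1 - p)) * D.dl k := by
  induction N with
  | zero => simp
  | succ N ih =>
    rw [pow_succ', mul_assoc, ih, mul_sub, ← mul_assoc, show D.x k * D.t k = D.t k * D.x (k + 1) -
      D.dl k by rw [D.t_x1]; abel, sub_mul, Finset.sum_range_succ', mul_assoc, ← pow_succ',
      sub_sub]
    congr 1
    rw [add_mul, ← D.x_pow_dl, add_comm]
    congr 1
    · rw [← mul_assoc, Finset.mul_sum]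
      congr 1
      refine Finset.sum_congr rfl fun p _ => ?_
      rw [← mul_assoc, ← pow_succ', show N + 1 - 1 - (p + 1) = N - 1 - p by omega]
    · simp

end Datum

section nilp

variable {D : Datum K I} {P : Type} [AddCommGroup P] [Module (KLRAlg D) P]

theorem x_pow_smul_of_le {k N N' : ℕ} {u : P} (h : D.x k ^ N • u = 0) (hN : N ≤ N') :
    D.x k ^ N' • u = 0 := by
  obtain ⟨r, rfl⟩ := Nat.exists_eq_add_of_le' hN
  rw [pow_add, mul_smul, h, smul_zero]

variable (D P) in
/-- the submodule of all vectors on which the dots act nilpotently -/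
def nilSub : Submodule (KLRAlg D) P where
  carrier := {u | ∀ k, ∃ N : ℕ, D.x k ^ N • u = 0}
  zero_mem' := fun k => ⟨0, smul_zero _⟩
  add_mem' := by
    intro u v hu hv k
    obtain ⟨N, hN⟩ := hu k
    obtain ⟨N', hN'⟩ := hv k
    refine ⟨N + N', ?_⟩
    rw [smul_add, x_pow_smul_of_le hN (by omega), x_pow_smul_of_le hN' (by omega), add_zero]
  smul_mem' := by
    intro a
    induction a using KLRAlg.induction with
    | hs r =>
      intro u hu k
      obtain ⟨N, hN⟩ := hu k
      refine ⟨N, ?_⟩
      rw [← mul_smul, ← Algebra.commutes, mul_smul, hN, smul_zero]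
    | hadd a b ha hb =>
      intro u hu k
      obtain ⟨N, hN⟩ := ha hu k
      obtain ⟨N', hN'⟩ := hb hu k
      refine ⟨N + N', ?_⟩
      rw [add_smul, smul_add, x_pow_smul_of_le hN (by omega), x_pow_smul_of_le hN' (by omega),
        add_zero]
    | hmul a b ha hb =>
      intro u hu
      rw [mul_smul]
      exact ha (hb hu)
    | he l j =>
      intro u hu k
      obtain ⟨N, hN⟩ := hu k
      refine ⟨N, ?_⟩
      rw [← mul_smul, D.x_pow_e, mul_smul, hN, smul_zero]
    | hx l =>
      intro u hu k
      obtain ⟨N, hN⟩ := hu k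
      refine ⟨N, ?_⟩
      rw [← mul_smul, D.x_pow_x, mul_smul, hN, smul_zero]
    | ht l =>
      intro u hu k
      by_cases h1 : k = l
      · subst h1
        obtain ⟨N, hN⟩ := hu k
        obtain ⟨N', hN'⟩ := hu (k + 1)
        refine ⟨N + N', ?_⟩
        rw [← mul_smul, D.x0_pow_t, sub_smul, mul_smul, x_pow_smul_of_le hN' (by omega), smul_zero,
          zero_sub, neg_eq_zero, Finset.sum_mul, Finset.sum_smul]
        refine Finset.sum_eq_zero fun p hp => ?_
        rw [Finset.mem_range] at hp
        rcases Nat.lt_or_ge p N with h2 | h2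
        · rw [mul_assoc, D.x_pow_dl, mul_smul, mul_smul, x_pow_smul_of_le hN' (by omega),
            smul_zero, smul_zero]
        · rw [(Commute.pow_pow (D.x_comm k (k + 1)) p (N + N' - 1 - p)).eq, mul_assoc, D.x_pow_dl,
            mul_smul, mul_smul, x_pow_smul_of_le hN h2, smul_zero, smul_zero]
      by_cases h2 : k = l + 1
      · subst h2
        obtain ⟨N, hN⟩ := hu l
        obtain ⟨N', hN'⟩ := hu (l + 1)
        refine ⟨N + N', ?_⟩
        rw [← mul_smul, D.x1_pow_t, add_smul, mul_smul, x_pow_smul_of_le hN (by omega), smul_zero,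
          zero_add, Finset.sum_mul, Finset.sum_smul]
        refine Finset.sum_eq_zero fun p hp => ?_
        rw [Finset.mem_range] at hp
        rcases Nat.lt_or_ge p N' with h2 | h2
        · rw [mul_assoc, D.x_pow_dl, mul_smul, mul_smul, x_pow_smul_of_le hN (by omega),
            smul_zero, smul_zero]
        · rw [(Commute.pow_pow (D.x_comm (l + 1) l) p (N + N' - 1 - p)).eq, mul_assoc, D.x_pow_dl,
            mul_smul, mul_smul, x_pow_smul_of_le hN' h2, smul_zero, smul_zero]
      · obtain ⟨N, hN⟩ := hu k
        refine ⟨N, ?_⟩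
        rw [← mul_smul, D.x_pow_t l k N h1 h2, mul_smul, hN, smul_zero]

theorem mem_nilSub {u : P} : u ∈ nilSub D P ↔ ∀ k, ∃ N : ℕ, D.x k ^ N • u = 0 := Iff.rfl

variable [Module K P] [IsScalarTower K (KLRAlg D) P]

/-- a finite dimensional module generated by vectors on which the dots act nilpotently is
nilpotent -/
theorem nilp_of_span [FiniteDimensional K P] (V : Set P) (hV : Submodule.span (KLRAlg D) V = ⊤)
    (h : ∀ u ∈ V, ∀ k, ∃ N : ℕ, D.x k ^ N • u = 0) : Nilp D P := by
  intro k
  have h1 : Submodule.span (KLRAlg D) V ≤ nilSub D P := Submodule.span_le.2 h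
  have h2 : IsNilpotent (Algebra.lsmul K K P (D.x k)) := by
    rw [Module.End.isNilpotent_iff_of_finite]
    intro u
    obtain ⟨N, hN⟩ := h1 (hV ▸ Submodule.mem_top : u ∈ Submodule.span (KLRAlg D) V) k
    refine ⟨N, ?_⟩
    rw [← map_pow]
    exact hN
  obtain ⟨N, hN⟩ := h2
  refine ⟨N, fun u => ?_⟩
  rw [← map_pow] at hN
  exact LinearMap.congr_fun hN u

theorem Conv.span_mk {D : Datum K I} (m : ℕ) (M N : Type) [AddCommGroup M] [Module K M]
    [Module (KLRAlg D) M] [AddCommGroup N] [Module K N] [Module (KLRAlg D) N] :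
    Submodule.span (KLRAlg D) {z | ∃ (u : M) (v : N), z = Conv.mk D m M N u v} = ⊤ := by
  rw [eq_top_iff]
  intro z _
  induction z using Conv.induction with
  | h0 => exact Submodule.zero_mem _
  | hadd y z hy hz => exact Submodule.add_mem _ (hy trivial) (hz trivial)
  | h a u v => exact Submodule.smul_mem _ a (Submodule.subset_span ⟨u, v, rfl⟩)

/-- the convolution product of nilpotent modules is nilpotent (if it is finite dimensional) -/
theorem Conv.nilp {m : ℕ} {M N : Type} [AddCommGroup M] [Module K M]
    [Module (KLRAlg D) M] [AddCommGroup N] [Module K N] [Module (KLRAlg D) N]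
    (hM : Nilp D M) (hN : Nilp D N) [FiniteDimensional K (Conv D m M N)] :
    Nilp D (Conv D m M N) := by
  refine nilp_of_span _ (Conv.span_mk m M N) ?_
  rintro _ ⟨u, v, rfl⟩ k
  by_cases hk : k < m
  · obtain ⟨r, hr⟩ := hM k
    refine ⟨r, ?_⟩
    have h1 := Conv.tr_smul_mk (D := D) (m := m) (D.x k ^ r) u v
    rwa [map_pow, D.tr_x, if_pos hk, hr, map_zero, LinearMap.zero_apply] at h1
  · obtain ⟨r, hr⟩ := hN (k - m)
    refine ⟨r, ?_⟩
    have h1 := Conv.shn_smul_mk (D := D) (m := m) (D.x (k - m) ^ r) u v
    rwa [map_pow, D.shn_x, hr, map_zero, show m + (k - m) = k by omega] at h1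

end nilp

end Pool.Agent.KLR
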