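import Pool.Agent.Work.MP_e487d8_al.Mod.Shuf
import Pool.Agent.Work.MP_e487d8_al.Mod.Lt

/-! MP_e487d8_al: the convolution product of finite dimensional nilpotent modules. -/

set_option autoImplicit false

namespace Pool.Agent.KLR

variable {K I : Type} [Field K] [Fintype I] [DecidableEq I] {D : Datum K I}

theorem Conv.fdMod {m n : ℕ} {M N : Type}
    [AddCommGroup M] [Module K M] [Module (KLRAlg D) M] [IsScalarTower K (KLRAlg D) M]
    [AddCommGroup N] [Module K N] [Module (KLRAlg D) N] [IsScalarTower K (KLRAlg D) N]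
    (hb : S_basis D) (hM : FdMod D m M) (hN : FdMod D n N) : FdMod D (m + n) (Conv D m M N) := by
  haveI := hM.fd
  haveI := hN.fd
  haveI : FiniteDimensional K (Conv D m M N) := Conv.finiteDimensional hb hM.strand hN.strand
  exact
    { strand := Conv.isStrand hM.strand hN.strand
      fd := this
      nilp := Conv.nilp hM.nilp hN.nilp }

theorem Conv.fdMod_chrQ {m n : ℕ} {M N : Type}
    [AddCommGroup M] [Module K M] [Module (KLRAlg D) M] [IsScalarTower K (KLRAlg D) M]
    [AddCommGroup N] [Module K N] [Module (KLRAlg D) N] [IsScalarTower K (KLRAlg D) N]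
    (hb : S_basis D) (hM : FdMod D m M) (hN : FdMod D n N) : FdMod D (m + n) (Conv D m M N) ∧
      chrQ D (m + n) (Conv D m M N) = chrQ D m M * chrQ D n N := by
  haveI := hM.fd
  haveI := hN.fd
  exact ⟨Conv.fdMod hb hM hN, Conv.chrQ_eq hb hM.strand hN.strand⟩

end Pool.Agent.KLR
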