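import Pool.Agent.Work.MP_e487d8_al.Conv.Mir
import Pool.Agent.Work.MP_e487d8_al.Mod.Shuf

/-! MP_e487d8_al: the character of the mirror. -/

set_option autoImplicit false

namespace Pool.Agent.KLR

variable {K I : Type} [Field K] [Fintype I] [DecidableEq I] {D : Datum K I}

theorem Datum.mir_eW (ν : List I) : D.mir ν.length (D.eW ν) = D.eW ν.reverse := by
  induction ν with
  | nil => rw [D.eW_nil, map_one, List.reverse_nil, D.eW_nil]
  | cons i ν ih =>
    rw [D.eW_cons, map_mul, D.mir_e, if_pos (by rw [List.length_cons]; omega), List.length_cons,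
      D.mir_shn ν.length 1, ih, List.reverse_cons, D.eW_append, List.length_reverse, D.eW_cons,
      D.eW_nil, map_one, mul_one, D.shn_e]
    have h1 := D.tr_mul_shn (m := ν.length) (m' := ν.length) le_rfl (D.eW ν.reverse) (D.e 0 i)
    rw [D.tr_eW _ (le_of_eq (List.length_reverse)), D.shn_e, Nat.add_zero] at h1
    rw [Nat.add_sub_cancel, Nat.sub_zero, Nat.add_zero, h1]

namespace Mir

variable {n : ℕ} {M : Type} [AddCommGroup M] [Module K M]
  [Module (KLRAlg D) M] [IsScalarTower K (KLRAlg D) M]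

theorem mem_wordSp (ν : List I) (h : ν.length = n) (u : M) :
    Tw.mk (D.mir n) u ∈ wordSp D (Mir D n M) ν ↔ u ∈ wordSp D M ν.reverse := by
  subst h
  constructor
  · rintro ⟨v, hv⟩
    obtain ⟨v, rfl⟩ := (Tw.mk (D.mir ν.length)).surjective v
    refine ⟨v, ?_⟩
    change D.eW ν • Tw.mk (D.mir ν.length) v = _ at hv
    rw [Tw.smul_mk, D.mir_eW] at hv
    exact (Tw.mk (D.mir ν.length)).injective hv
  · rintro ⟨v, hv⟩
    refine ⟨Tw.mk (D.mir ν.length) v, ?_⟩
    change D.eW ν • Tw.mk (D.mir ν.length) v = _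
    rw [Tw.smul_mk, D.mir_eW]
    exact congrArg _ hv

theorem wordSp_map (ν : List I) (h : ν.length = n) :
    (wordSp D M ν.reverse).map (Tw.mk (D.mir n)).toLinearMap = wordSp D (Mir D n M) ν := by
  ext z
  obtain ⟨z, rfl⟩ := (Tw.mk (D.mir n)).surjective z
  rw [mem_wordSp ν h]
  constructor
  · rintro ⟨y, hy, hyz⟩
    rwa [← (Tw.mk (D.mir n)).injective hyz]
  · intro hz
    exact ⟨z, hz, rfl⟩

/-- the character of the mirror -/
theorem chr_mir (ν : List I) : chr D n (Mir D n M) ν = chr D n M ν.reverse := by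
  unfold chr
  rw [List.length_reverse]
  split_ifs with h
  · rw [← wordSp_map ν h]
    exact LinearEquiv.finrank_map_eq (Tw.mk (D.mir n)) _
  · rfl

end Mir

end Pool.Agent.KLR
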