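import Pool.Agent.Work.MP_e487d8_al.Mod.Word

/-! MP_e487d8_al: the word spaces of a convolution product. -/

set_option autoImplicit false

open scoped TensorProduct

namespace Pool.Agent.KLR

variable {K I : Type} [Field K] [Fintype I] [DecidableEq I] {D : Datum K I}

omit [Fintype I] [DecidableEq I] in
theorem map_range_restrict {V V' W W' : Type} [AddCommGroup V] [Module K V] [AddCommGroup W]
    [Module K W] [AddCommGroup V'] [Module K V'] [AddCommGroup W'] [Module K W']
    (p : V →ₗ[K] V') (q : W →ₗ[K] W') (z : V ⊗[K] W) :
    TensorProduct.map (LinearMap.range p).subtype (LinearMap.range q).subtype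
      (TensorProduct.map p.rangeRestrict q.rangeRestrict z) = TensorProduct.map p q z := by
  induction z using TensorProduct.induction_on with
  | zero => simp
  | add y z hy hz => rw [map_add, map_add, map_add, hy, hz]
  | tmul u v => simp

namespace Conv

variable {m n : ℕ} {M N : Type}
  [AddCommGroup M] [Module K M] [Module (KLRAlg D) M] [IsScalarTower K (KLRAlg D) M]
  [AddCommGroup N] [Module K N] [Module (KLRAlg D) N] [IsScalarTower K (KLRAlg D) N]

omit [IsScalarTower K (KLRAlg D) M] [IsScalarTower K (KLRAlg D) N] in
theorem eW_smul_tw_smul_mk (w : Shf m n) (κ : List I) (h : κ.length = m + n) (u : M) (v : N) :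
    D.eW κ • D.tw w.1 • mk D m M N u v =
      D.tw w.1 • mk D m M N (D.eW (sel false w.1 κ) • u) (D.eW (sel true w.1 κ) • v) := by
  have h1 : w.1.length = κ.length := by rw [w.length_eq, h]
  rw [← mul_smul, D.eW_tw w.1 κ h1, mul_smul, mul_smul, w.2.1, shn_smul_mk,
    ← D.tr_eW (m := m) (sel false w.1 κ) (by rw [length_sel _ _ _ h1, w.2.1]), tr_smul_mk,
    D.tr_eW (m := m) (sel false w.1 κ) (by rw [length_sel _ _ _ h1, w.2.1])]

/-- the action of a word idempotent in components -/
theorem eW_smul_convSum (κ : List I) (h : κ.length = m + n) (f : Shf m n →₀ (M ⊗[K] N)) :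
    D.eW κ • convSum D m n M N f =
      convSum D m n M N ((Finsupp.linearEquivFunOnFinite K (M ⊗[K] N) (Shf m n)).symm
        (fun w => TensorProduct.map (Algebra.lsmul K K M (D.eW (sel false w.1 κ)))
          (Algebra.lsmul K K N (D.eW (sel true w.1 κ))) (f w))) := by
  classical
  induction f using Finsupp.induction_linear with
  | zero =>
    rw [map_zero, smul_zero]
    symm
    convert map_zero (convSum D m n M N)
    rw [LinearEquiv.symm_apply_eq, map_zero]
    funext w
    simp
  | add f g hf hg =>
    rw [map_add, smul_add, hf, hg, ← map_add, ← map_add]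
    congr 2
    funext w
    simp
  | single w z =>
    induction z using TensorProduct.induction_on with
    | zero =>
      rw [Finsupp.single_zero, map_zero, smul_zero]
      symm
      convert map_zero (convSum D m n M N)
      rw [LinearEquiv.symm_apply_eq, map_zero]
      funext w
      simp
    | add y z hy hz =>
      rw [Finsupp.single_add, map_add, smul_add, hy, hz, ← map_add, ← map_add]
      congr 2
      funext w
      simp
    | tmul u v =>
      rw [convSum_single, eW_smul_tw_smul_mk w κ h, ← convSum_single]
      congr 1
      rw [LinearEquiv.eq_symm_apply]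
      funext w'
      rw [Finsupp.linearEquivFunOnFinite_apply]
      by_cases hw : w = w'
      · subst hw
        simp
      · rw [Finsupp.single_eq_of_ne (Ne.symm hw), Finsupp.single_eq_of_ne (Ne.symm hw), map_zero]

/-- the dimension of a word space of a convolution product -/
theorem finrank_wordSp (hb : S_basis D) (hM : IsStrand D m M) (hN : IsStrand D n N)
    [FiniteDimensional K M] [FiniteDimensional K N] (κ : List I) (h : κ.length = m + n) :
    Module.finrank K (wordSp D (Conv D m M N) κ) =
      ∑ w : Shf m n, Module.finrank K (wordSp D M (sel false w.1 κ)) *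
        Module.finrank K (wordSp D N (sel true w.1 κ)) := by
  classical
  let inc : ∀ w : Shf m n, (wordSp D M (sel false w.1 κ)) ⊗[K] (wordSp D N (sel true w.1 κ)) →ₗ[K]
      M ⊗[K] N := fun w => TensorProduct.map (Submodule.subtype _) (Submodule.subtype _)
  have hinc : ∀ w, Function.Injective (inc w) := fun w =>
    TensorProduct.map_injective_of_flat_flat _ _ (Submodule.injective_subtype _)
      (Submodule.injective_subtype _)
  let J : (∀ w : Shf m n, (wordSp D M (sel false w.1 κ)) ⊗[K] (wordSp D N (sel true w.1 κ))) →ₗ[K]
      Conv D m M N := (convSum D m n M N).comp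
        (((Finsupp.linearEquivFunOnFinite K (M ⊗[K] N) (Shf m n)).symm.toLinearMap).comp
          (LinearMap.pi fun w => (inc w).comp (LinearMap.proj w)))
  have hJ : ∀ f, J f = convSum D m n M N
      ((Finsupp.linearEquivFunOnFinite K (M ⊗[K] N) (Shf m n)).symm fun w => inc w (f w)) :=
    fun f => rfl
  have hJinj : Function.Injective J := by
    intro f g hfg
    rw [hJ, hJ] at hfg
    have h1 := (LinearEquiv.injective _) ((hb m n M N hM hN).1 hfg)
    funext w
    exact hinc w (congrFun h1 w)
  have hrange : LinearMap.range J = wordSp D (Conv D m M N) κ := by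
    apply le_antisymm
    · rintro z ⟨f, rfl⟩
      refine ⟨J f, ?_⟩
      change D.eW κ • J f = J f
      rw [hJ, eW_smul_convSum κ h]
      congr 2
      funext w
      rw [← Finsupp.linearEquivFunOnFinite_apply (R := K), LinearEquiv.apply_symm_apply]
      have h2 : ∀ y, TensorProduct.map (Algebra.lsmul K K M (D.eW (sel false w.1 κ)))
          (Algebra.lsmul K K N (D.eW (sel true w.1 κ))) (inc w y) = inc w y := by
        intro y
        induction y using TensorProduct.induction_on with
        | zero => simp
        | add y z hy hz => rw [map_add, map_add, hy, hz]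
        | tmul u v =>
          obtain ⟨u, ⟨u', rfl⟩⟩ := u
          obtain ⟨v, ⟨v', rfl⟩⟩ := v
          simp only [inc, TensorProduct.map_tmul, Submodule.coe_subtype, Algebra.lsmul_coe]
          rw [← mul_smul, ← mul_smul, D.eW_idem, D.eW_idem]
      exact h2 _
    · rintro z ⟨y, rfl⟩
      obtain ⟨f, rfl⟩ := (hb m n M N hM hN).2 y
      change D.eW κ • convSum D m n M N f ∈ LinearMap.range J
      rw [eW_smul_convSum κ h]
      refine ⟨fun w => TensorProduct.map
        (LinearMap.rangeRestrict (Algebra.lsmul K K M (D.eW (sel false w.1 κ))))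
        (LinearMap.rangeRestrict (Algebra.lsmul K K N (D.eW (sel true w.1 κ)))) (f w), ?_⟩
      refine (hJ _).trans ?_
      congr 2
      funext w
      exact map_range_restrict _ _ _
  rw [← hrange, LinearMap.finrank_range_of_inj hJinj, Module.finrank_pi_fintype]
  refine Finset.sum_congr rfl fun w _ => ?_
  rw [Module.finrank_tensorProduct]

end Conv

end Pool.Agent.KLR
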